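import Mathlib
import Pool.Agent.Y685.Scale
import Pool.Agent.Y685.Base
import Pool.Agent.Y729.FW.Surj

/-!
# Lattices with given invariants
-/

set_option autoImplicit false

open UpperHalfPlane ModularForm EisensteinSeries Filter Topology

noncomputable section

namespace Pool.Agent.NH19.LF

open Pool.Agent.Y685 (LL LC LC_ω₂ LC_coe)

/-- the elements of the lattice -/
def latV (τ : ℍ) : (Fin 2 → ℤ) ≃ (LL τ).lattice :=
  Equiv.ofBijective (fun v => ⟨v 0 * (τ : ℂ) + v 1, PeriodPair.mem_lattice.2 ⟨v 1, v 0, by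
    show (v 1 : ℂ) * 1 + v 0 * (τ : ℂ) = _
    ring⟩⟩) ⟨by
    intro v w h
    have h2 : (v 0 : ℂ) * (τ : ℂ) + v 1 = w 0 * (τ : ℂ) + w 1 := congrArg Subtype.val h
    have h3 := congrArg Complex.im h2
    simp at h3
    have h4 : v 0 = w 0 := by
      rcases h3 with h3 | h3
      · exact_mod_cast h3
      · exact absurd h3 τ.im_ne_zero
    have h5 : v 1 = w 1 := by
      rw [h4] at h2
      have := add_left_cancel h2
      exact_mod_cast this
    funext i
    fin_cases i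
    · exact h4
    · exact h5, by
    intro l
    obtain ⟨m, n, h⟩ := PeriodPair.mem_lattice.1 l.2
    refine ⟨![n, m], Subtype.ext ?_⟩
    rw [← h]
    show (n : ℂ) * (τ : ℂ) + m = (m : ℂ) * 1 + n * (τ : ℂ)
    ring⟩

theorem G_eq (τ : ℍ) {k : ℕ} (hk : 3 ≤ k) :
    (LL τ).G k = 2 * riemannZeta k * E hk τ := by
  have h1 := tsum_eisSummand_eq_riemannZeta_mul_eisensteinSeries hk τ
  have h2 : E hk τ = (1 / 2 : ℂ) * eisensteinSeries (N := 1) 0 k τ := rfl
  have h3 : 2 * riemannZeta k * E hk τ = ∑' v : Fin 2 → ℤ, eisSummand k v τ := by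
    rw [h1, h2]
    ring
  rw [h3]
  unfold PeriodPair.G
  rw [← (latV τ).tsum_eq]
  refine tsum_congr fun v => ?_
  have h4 : (((latV τ) v : (LL τ).lattice) : ℂ) = (v 0 * (τ : ℂ) + v 1) := rfl
  rw [h4]
  unfold eisSummand
  rw [zpow_neg, zpow_natCast]

theorem zeta_six : riemannZeta 6 = (Real.pi : ℂ) ^ 6 / 945 := by
  have h := riemannZeta_two_mul_nat (k := 3) (by norm_num)
  have h1 : (2 * ((3 : ℕ) : ℂ)) = 6 := by norm_num
  rw [h1, show 2 * 3 = 6 by norm_num, show bernoulli 6 = 1 / 42 by decide +kernel] at h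
  rw [h]
  norm_num [Nat.factorial]
  ring

theorem g2_LL (τ : ℍ) : (LL τ).g₂ = 4 * (Real.pi : ℂ) ^ 4 / 3 * E₄ τ := by
  rw [PeriodPair.g₂, G_eq τ (k := 4) (by norm_num)]
  have h4 : riemannZeta ((4 : ℕ) : ℂ) = (Real.pi : ℂ) ^ 4 / 90 := by
    push_cast
    exact riemannZeta_four
  rw [h4, show (E₄ τ : ℂ) = E (k := 4) (by norm_num) τ from rfl]
  ring

theorem g3_LL (τ : ℍ) : (LL τ).g₃ = 8 * (Real.pi : ℂ) ^ 6 / 27 * E₆ τ := by
  rw [PeriodPair.g₃, G_eq τ (k := 6) (by norm_num)]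
  have h4 : riemannZeta ((6 : ℕ) : ℂ) = (Real.pi : ℂ) ^ 6 / 945 := by
    push_cast
    exact zeta_six
  rw [h4, show (E₆ τ : ℂ) = E (k := 6) (by norm_num) τ from rfl]
  ring

theorem disc_LL (τ : ℍ) : (LL τ).g₂ ^ 3 - 27 * (LL τ).g₃ ^ 2 =
    4096 * (Real.pi : ℂ) ^ 12 * discriminant τ := by
  rw [discriminant_eq_E₄_cube_sub_E₆_sq, g2_LL, g3_LL]
  ring

theorem disc_ne (τ : ℍ) : (LL τ).g₂ ^ 3 - 27 * (LL τ).g₃ ^ 2 ≠ 0 := by
  rw [disc_LL]
  have hpi : (Real.pi : ℂ) ≠ 0 := by exact_mod_cast Real.pi_ne_zero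
  exact mul_ne_zero (mul_ne_zero (by norm_num) (pow_ne_zero _ hpi)) (discriminant_ne_zero _)

/-- a lattice with the right quotient of the invariants -/
theorem exists_tau {A B : ℂ} (h : A ^ 3 - 27 * B ^ 2 ≠ 0) :
    ∃ τ : ℍ, (LL τ).g₂ ^ 3 * B ^ 2 = A ^ 3 * (LL τ).g₃ ^ 2 := by
  obtain ⟨τ, hτ⟩ := Pool.Agent.Y729.FW.j_surj (1728 * A ^ 3 / (A ^ 3 - 27 * B ^ 2))
  refine ⟨τ, ?_⟩
  have hΔ : discriminant τ ≠ 0 := discriminant_ne_zero _
  have hpi : (Real.pi : ℂ) ≠ 0 := by exact_mod_cast Real.pi_ne_zero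
  unfold Pool.Agent.TH876.FH.jInv at hτ
  rw [div_eq_div_iff hΔ h] at hτ
  have h1 := disc_LL τ
  have h2 := g2_LL τ
  have h3 : (LL τ).g₂ ^ 3 = 64 * (Real.pi : ℂ) ^ 12 / 27 * E₄ τ ^ 3 := by
    rw [h2]; ring
  have h4 : (27 : ℂ) * ((LL τ).g₂ ^ 3 * B ^ 2 - A ^ 3 * (LL τ).g₃ ^ 2) = 0 := by
    linear_combination (A ^ 3) * h1 - (A ^ 3 - 27 * B ^ 2) * h3 -
      64 * (Real.pi : ℂ) ^ 12 / 27 * hτ
  have h5 := (mul_eq_zero.1 h4).resolve_left (by norm_num)
  exact sub_eq_zero.1 h5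

/-- **a lattice with given invariants** -/
theorem exists_lat {A B : ℂ} (h : A ^ 3 - 27 * B ^ 2 ≠ 0) :
    ∃ (τ : ℍ) (α : ℂ), α ≠ 0 ∧ (LL τ).g₂ = α ^ 4 * A ∧ (LL τ).g₃ = α ^ 6 * B := by
  obtain ⟨τ, hτ⟩ := exists_tau h
  have hd := disc_ne τ
  set g := (LL τ).g₂
  set k := (LL τ).g₃
  by_cases hA : A = 0
  · subst hA
    have hB : B ≠ 0 := by
      rintro rfl
      apply h
      ring
    have hg : g = 0 := by
      have : g ^ 3 * B ^ 2 = 0 := by rw [hτ]; ring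
      exact pow_eq_zero_iff (by norm_num) |>.1 ((mul_eq_zero.1 this).resolve_right
        (pow_ne_zero _ hB))
    have hk : k ≠ 0 := by
      intro hk
      apply hd
      rw [hg, hk]
      ring
    obtain ⟨α, hα⟩ := IsAlgClosed.exists_pow_nat_eq (k / B) (n := 6) (by norm_num)
    have hα0 : α ≠ 0 := by
      rintro rfl
      rw [zero_pow (by norm_num)] at hα
      exact div_ne_zero hk hB hα.symm
    refine ⟨τ, α, hα0, ?_, ?_⟩
    · show g = _
      rw [hg]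
      ring
    · show k = _
      rw [hα]
      field_simp
  · have hg : g ≠ 0 := by
      intro hg
      have h1 : A ^ 3 * k ^ 2 = 0 := by rw [← hτ, hg]; ring
      have h2 := (mul_eq_zero.1 h1).resolve_left (pow_ne_zero _ hA)
      have hk : k = 0 := pow_eq_zero_iff (by norm_num) |>.1 h2
      apply hd
      rw [hg, hk]
      ring
    obtain ⟨α, hα⟩ := IsAlgClosed.exists_pow_nat_eq (g / A) (n := 4) (by norm_num)
    have hα0 : α ≠ 0 := by
      rintro rfl
      rw [zero_pow (by norm_num)] at hα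
      exact div_ne_zero hg hA hα.symm
    have h1 : g = α ^ 4 * A := by
      rw [hα]
      field_simp
    have h2 : (k - α ^ 6 * B) * (k + α ^ 6 * B) = 0 := by
      have h3 : A ^ 3 * ((k - α ^ 6 * B) * (k + α ^ 6 * B)) = 0 := by
        rw [h1] at hτ
        linear_combination -hτ
      exact (mul_eq_zero.1 h3).resolve_left (pow_ne_zero _ hA)
    rcases mul_eq_zero.1 h2 with h3 | h3
    · exact ⟨τ, α, hα0, h1, sub_eq_zero.1 h3⟩
    · refine ⟨τ, Complex.I * α, mul_ne_zero Complex.I_ne_zero hα0, ?_, ?_⟩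
      · show g = _
        rw [mul_pow, show Complex.I ^ 4 = 1 by exact Complex.I_pow_four, one_mul]
        exact h1
      · show k = _
        have h4 : Complex.I ^ 6 = -1 := by
          rw [show 6 = 4 + 2 by norm_num, pow_add, Complex.I_pow_four, Complex.I_sq]
          ring
        rw [mul_pow, h4]
        linear_combination h3

end Pool.Agent.NH19.LF
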