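import Mathlib
import Pool.Agent.Y685.TauC
import Pool.Agent.NH19.LF.Lat

/-!
# The local inverse of the invariants
-/

set_option autoImplicit false

open UpperHalfPlane Filter Topology
open scoped PeriodPair

noncomputable section

namespace Pool.Agent.NH19.LF

open Pool.Agent.Y685 (LL LC LC_ω₂ LC_coe)

theorem disc_LC (t : ℂ) : (LC t).g₂ ^ 3 - 27 * (LC t).g₃ ^ 2 ≠ 0 := disc_ne _

theorem an_g {t : ℂ} (ht : 0 < t.im) :
    AnalyticAt ℂ (fun s => (LC s).g₂) t ∧ AnalyticAt ℂ (fun s => (LC s).g₃) t := by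
  have hev : ∀ᶠ s in 𝓝 t, 0 < s.im :=
    (Complex.continuous_im.tendsto t).eventually (eventually_gt_nhds ht)
  constructor
  · rw [Complex.analyticAt_iff_eventually_differentiableAt]
    filter_upwards [hev] with s hs
    exact (Pool.Agent.Y685.H2.task_A4 s hs).2.1.differentiableAt
  · rw [Complex.analyticAt_iff_eventually_differentiableAt]
    filter_upwards [hev] with s hs
    exact (Pool.Agent.Y685.H2.task_A4 s hs).2.2.1.differentiableAt

/-- the map to be inverted -/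
def FF (p : ℂ × ℂ) : ℂ × ℂ := ((LC p.2).g₂ / p.1 ^ 4, (LC p.2).g₃ / p.1 ^ 6)

theorem an_FF {a t : ℂ} (ht : 0 < t.im) (ha : a ≠ 0) : AnalyticAt ℂ FF (a, t) := by
  obtain ⟨h2, h3⟩ := an_g ht
  have e1 : AnalyticAt ℂ (fun p : ℂ × ℂ => p.1) (a, t) := analyticAt_fst
  have e2 : AnalyticAt ℂ (fun p : ℂ × ℂ => p.2) (a, t) := analyticAt_snd
  have e3 : AnalyticAt ℂ (fun p : ℂ × ℂ => (LC p.2).g₂) (a, t) :=
    AnalyticAt.fun_comp (g := fun s => (LC s).g₂) h2 e2
  have e4 : AnalyticAt ℂ (fun p : ℂ × ℂ => (LC p.2).g₃) (a, t) :=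
    AnalyticAt.fun_comp (g := fun s => (LC s).g₃) h3 e2
  exact (e3.div (e1.pow 4) (pow_ne_zero _ ha)).prod (e4.div (e1.pow 6) (pow_ne_zero _ ha))

/-- the derivative of the map is injective -/
theorem inj_FF {a t : ℂ} (ht : 0 < t.im) (ha : a ≠ 0) (v : ℂ × ℂ)
    (hv : fderiv ℂ FF (a, t) v = 0) : v = 0 := by
  obtain ⟨-, d2, d3, -, hW⟩ := Pool.Agent.Y685.H2.task_A4 t ht
  have hFF := (an_FF ht ha).differentiableAt.hasFDerivAt
  have hc : HasDerivAt (fun r : ℂ => (a + r * v.1, t + r * v.2)) v 0 := by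
    have h1 : HasDerivAt (fun r : ℂ => a + r * v.1) v.1 0 := by
      simpa using ((hasDerivAt_id (0 : ℂ)).mul_const v.1).const_add a
    have h2 : HasDerivAt (fun r : ℂ => t + r * v.2) v.2 0 := by
      simpa using ((hasDerivAt_id (0 : ℂ)).mul_const v.2).const_add t
    exact h1.prodMk h2
  have hD := HasFDerivAt.comp_hasDerivAt (l := FF) (0 : ℂ) (by rw [zero_mul, zero_mul, add_zero, add_zero]; exact hFF) hc
  rw [hv] at hD
  have hD1 : HasDerivAt (fun r : ℂ => (LC (t + r * v.2)).g₂ / (a + r * v.1) ^ 4)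
      (ContinuousLinearMap.fst ℂ ℂ ℂ (0 : ℂ × ℂ)) 0 :=
    (ContinuousLinearMap.fst ℂ ℂ ℂ).hasFDerivAt.comp_hasDerivAt (0 : ℂ) hD
  have hD2 : HasDerivAt (fun r : ℂ => (LC (t + r * v.2)).g₃ / (a + r * v.1) ^ 6)
      (ContinuousLinearMap.snd ℂ ℂ ℂ (0 : ℂ × ℂ)) 0 :=
    (ContinuousLinearMap.snd ℂ ℂ ℂ).hasFDerivAt.comp_hasDerivAt (0 : ℂ) hD
  rw [map_zero] at hD1 hD2
  have l1 : HasDerivAt (fun r : ℂ => a + r * v.1) v.1 0 := by
    simpa using ((hasDerivAt_id (0 : ℂ)).mul_const v.1).const_add a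
  have l2 : HasDerivAt (fun r : ℂ => t + r * v.2) v.2 0 := by
    simpa using ((hasDerivAt_id (0 : ℂ)).mul_const v.2).const_add t
  have m2 : HasDerivAt (fun r : ℂ => (LC (t + r * v.2)).g₂) _ 0 :=
    HasDerivAt.comp (0 : ℂ) (h₂ := fun s => (LC s).g₂) (h := fun r : ℂ => t + r * v.2)
      (by rw [zero_mul, add_zero]; exact d2) l2
  have m3 : HasDerivAt (fun r : ℂ => (LC (t + r * v.2)).g₃) _ 0 :=
    HasDerivAt.comp (0 : ℂ) (h₂ := fun s => (LC s).g₃) (h := fun r : ℂ => t + r * v.2)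
      (by rw [zero_mul, add_zero]; exact d3) l2
  have n2 := (m2.div (l1.pow 4) (by simpa using ha)).unique hD1
  have n3 := (m3.div (l1.pow 6) (by simpa using ha)).unique hD2
  have hdisc := disc_LC t
  have hbe : Pool.Agent.Y685.be t ≠ 0 := by
    unfold Pool.Agent.Y685.be
    exact one_div_ne_zero hW
  simp at n2 n3
  generalize (LC t).g₂ = G at *
  generalize (LC t).g₃ = K at *
  generalize Pool.Agent.Y685.al t = A at *
  generalize Pool.Agent.Y685.be t = b at *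
  have q2 : (-4 * A * G - 6 * b * K) * v.2 * a = 4 * G * v.1 := by
    rcases n2 with h | h
    · have h5 : a ^ 3 * ((-4 * A * G - 6 * b * K) * v.2 * a - 4 * G * v.1) = 0 := by
        linear_combination h
      have := (mul_eq_zero.1 h5).resolve_left (pow_ne_zero _ ha)
      linear_combination this
    · exact absurd h (by simpa using ha)
  have q3 : (-6 * A * K - b * G ^ 2 / 3) * v.2 * a = 6 * K * v.1 := by
    rcases n3 with h | h
    · have h5 : a ^ 5 * ((-6 * A * K - b * G ^ 2 / 3) * v.2 * a - 6 * K * v.1) = 0 := by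
        linear_combination h
      have := (mul_eq_zero.1 h5).resolve_left (pow_ne_zero _ ha)
      linear_combination this
    · exact absurd h (by simpa using ha)
  have e2 : v.2 = 0 := by
    have h5 : (b * a * (G ^ 3 - 27 * K ^ 2)) * v.2 = 0 := by
      linear_combination (9 / 2 * K) * q2 - 3 * G * q3
    exact (mul_eq_zero.1 h5).resolve_left (mul_ne_zero (mul_ne_zero hbe ha) hdisc)
  have e1 : v.1 = 0 := by
    rw [e2] at q2 q3
    by_cases hG : G = 0
    · have hK : K ≠ 0 := by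
        rintro rfl
        apply hdisc
        rw [hG]
        ring
      have : K * v.1 = 0 := by linear_combination (-1 / 6 : ℂ) * q3
      exact (mul_eq_zero.1 this).resolve_left hK
    · have : G * v.1 = 0 := by linear_combination (-1 / 4 : ℂ) * q2
      exact (mul_eq_zero.1 this).resolve_left hG
  exact Prod.ext e1 e2

/-- the family near a point -/
theorem fam0 {A B : ℂ → ℂ} {s₀ : ℂ} (hA : AnalyticAt ℂ A s₀) (hB : AnalyticAt ℂ B s₀)
    (h : A s₀ ^ 3 - 27 * B s₀ ^ 2 ≠ 0) : ∃ α τ : ℂ → ℂ, AnalyticAt ℂ α s₀ ∧ AnalyticAt ℂ τ s₀ ∧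
      0 < (τ s₀).im ∧ α s₀ ≠ 0 ∧ ∀ᶠ s in 𝓝 s₀, A s = (LC (τ s)).g₂ / α s ^ 4 ∧
        B s = (LC (τ s)).g₃ / α s ^ 6 := by
  obtain ⟨τ₀, α₀, ha, h2, h3⟩ := exists_lat h
  rw [← LC_coe] at h2 h3
  have hτ : 0 < (τ₀ : ℂ).im := τ₀.im_pos
  have hF := an_FF hτ ha
  have hval : FF (α₀, (τ₀ : ℂ)) = (A s₀, B s₀) := by
    unfold FF
    simp only
    rw [h2, h3]
    refine Prod.ext ?_ ?_
    · simp only
      field_simp
    · simp only
      field_simp
  have hinj : Function.Injective (fderiv ℂ FF (α₀, (τ₀ : ℂ))).toLinearMap := by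
    rw [← LinearMap.ker_eq_bot, LinearMap.ker_eq_bot']
    intro v hv
    exact inj_FF hτ ha v hv
  let e : (ℂ × ℂ) ≃L[ℂ] (ℂ × ℂ) :=
    (LinearEquiv.ofInjectiveEndo _ hinj).toContinuousLinearEquiv
  have he : HasFDerivAt FF (e : (ℂ × ℂ) →L[ℂ] (ℂ × ℂ)) (α₀, (τ₀ : ℂ)) := by
    refine hF.differentiableAt.hasFDerivAt.congr_fderiv ?_
    ext <;> rfl
  have hcd : ContDiffAt ℂ ⊤ FF (α₀, (τ₀ : ℂ)) := hF.contDiffAt
  have hn : (⊤ : WithTop ℕ∞) ≠ 0 := by simp
  have hinv := hcd.to_localInverse he hn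
  rw [hval] at hinv
  have hAB : AnalyticAt ℂ (fun s => (A s, B s)) s₀ := hA.prod hB
  have hcomp : AnalyticAt ℂ (fun s => hcd.localInverse he hn (A s, B s)) s₀ :=
    AnalyticAt.fun_comp (g := hcd.localInverse he hn) (f := fun s => (A s, B s)) hinv.analyticAt hAB
  have h0 : hcd.localInverse he hn (A s₀, B s₀) = (α₀, (τ₀ : ℂ)) := by
    rw [← hval]
    exact hcd.localInverse_apply_image he hn
  refine ⟨fun s => (hcd.localInverse he hn (A s, B s)).1,
    fun s => (hcd.localInverse he hn (A s, B s)).2, ?_, ?_, ?_, ?_, ?_⟩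
  · exact AnalyticAt.fun_comp (g := Prod.fst) analyticAt_fst hcomp
  · exact AnalyticAt.fun_comp (g := Prod.snd) analyticAt_snd hcomp
  · beta_reduce
    rw [h0]
    exact hτ
  · beta_reduce
    rw [h0]
    exact ha
  · have hr : ∀ᶠ y in 𝓝 (FF (α₀, (τ₀ : ℂ))), FF (hcd.localInverse he hn y) = y :=
      (hcd.hasStrictFDerivAt' he hn).eventually_right_inverse
    rw [hval] at hr
    have hct : Tendsto (fun s => (A s, B s)) (𝓝 s₀) (𝓝 (A s₀, B s₀)) := hAB.continuousAt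
    filter_upwards [hct.eventually hr] with s hs
    unfold FF at hs
    exact ⟨(congrArg Prod.fst hs).symm, (congrArg Prod.snd hs).symm⟩

end Pool.Agent.NH19.LF
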