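import Mathlib
import Pool.Agent.NH19.LF.Inv

/-!
# The scaled family of lattices
-/

set_option autoImplicit false

open UpperHalfPlane Filter Topology
open scoped PeriodPair

noncomputable section

namespace Pool.Agent.NH19.LF

open Pool.Agent.Y685 (LL LC LC_ω₂ LC_coe Hm h1 h2 al be Wc)
open H667R3 Pool.Agent.W245.EB

/-- the lattice `c L` -/
def Sc (L : PeriodPair) (c : ℂ) (hc : c ≠ 0) : PeriodPair where
  ω₁ := c * L.ω₁
  ω₂ := c * L.ω₂
  indep := by
    have h := L.indep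
    rw [LinearIndependent.pair_iff] at h ⊢
    intro s t hst
    apply h
    simp only [Complex.real_smul] at hst ⊢
    have : c * ((s : ℂ) * L.ω₁ + t * L.ω₂) = 0 := by linear_combination hst
    exact (mul_eq_zero.1 this).resolve_left hc

theorem Hm_Sc (L : PeriodPair) {c : ℂ} (hc : c ≠ 0) : Hm L (Sc L c hc) c where
  c0 := hc
  mem := fun x => by
    rw [PeriodPair.mem_lattice, PeriodPair.mem_lattice]
    constructor
    · rintro ⟨m, n, h⟩
      refine ⟨m, n, ?_⟩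
      apply mul_left_cancel₀ hc
      rw [← h]
      show c * (m * L.ω₁ + n * L.ω₂) = m * (c * L.ω₁) + n * (c * L.ω₂)
      ring
    · rintro ⟨m, n, h⟩
      refine ⟨m, n, ?_⟩
      rw [← h]
      show m * (c * L.ω₁) + n * (c * L.ω₂) = c * (m * L.ω₁ + n * L.ω₂)
      ring

/-- the family of lattices -/
def Lm (α τ : ℂ → ℂ) (s : ℂ) : PeriodPair :=
  if h : α s = 0 then LC (τ s) else Sc (LC (τ s)) (α s) h

variable {α τ : ℂ → ℂ} {s : ℂ}

theorem Lm_eq (h : α s ≠ 0) : Lm α τ s = Sc (LC (τ s)) (α s) h := by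
  unfold Lm
  rw [dif_neg h]

theorem Hm_Lm (h : α s ≠ 0) : Hm (LC (τ s)) (Lm α τ s) (α s) := by
  rw [Lm_eq h]
  exact Hm_Sc _ h

theorem Lm_ω₁ (h : α s ≠ 0) : (Lm α τ s).ω₁ = α s := by
  rw [Lm_eq h]
  show α s * 1 = _
  rw [mul_one]

theorem Lm_ω₂ (h : α s ≠ 0) (ht : 0 < (τ s).im) : (Lm α τ s).ω₂ = α s * τ s := by
  rw [Lm_eq h]
  show α s * (LC (τ s)).ω₂ = _
  rw [LC_ω₂ ht]

/-- relations between the constants -/
theorem rel {t : ℂ} (ht : 0 < t.im) :
    al t + be t * h1 t = 0 ∧ al t * t + be t * h2 t = 1 ∧ be t * Wc t = 1 := by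
  obtain ⟨-, -, -, -, hW⟩ := Pool.Agent.Y685.H2.task_A4 t ht
  refine ⟨?_, ?_, ?_⟩
  · unfold al
    ring
  · have : be t * Wc t = 1 := by unfold be; field_simp
    unfold al
    unfold Wc at this
    linear_combination this
  · unfold be; field_simp

theorem dh1 {t : ℂ} (ht : 0 < t.im) :
    HasDerivAt h1 (-al t * h1 t - be t * (LC t).g₂ / 12) t := by
  obtain ⟨a1, -, -, -, -⟩ := Pool.Agent.Y685.H2.task_A4 t ht
  refine a1.congr_deriv ?_
  unfold al
  ring

theorem dh2 {t : ℂ} (ht : 0 < t.im) :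
    HasDerivAt h2 (-al t * h2 t - be t * (LC t).g₂ / 12 * t) t := by
  obtain ⟨a1, -, -, a4, -⟩ := Pool.Agent.Y685.H2.task_A4 t ht
  have e1 := a4.add ((hasDerivAt_id t).mul a1)
  have e2 : HasDerivAt h2 _ t := e1.congr_of_eventuallyEq (by
    filter_upwards with r
    simp [Wc])
  refine e2.congr_deriv ?_
  obtain ⟨r1, r2, -⟩ := rel ht
  simp only [id]
  linear_combination (-h1 t) * r2 + (h2 t) * r1 + h1 t * t * r1

/-- the conditions at a point: the family has invariants `A, B` nearby -/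
structure Ok (A B α τ : ℂ → ℂ) (s : ℂ) : Prop where
  im : 0 < (τ s).im
  a0 : α s ≠ 0
  da : DifferentiableAt ℂ α s
  dt : DifferentiableAt ℂ τ s
  hA : ∀ᶠ r in 𝓝 s, A r = (LC (τ r)).g₂ / α r ^ 4
  hB : ∀ᶠ r in 𝓝 s, B r = (LC (τ r)).g₃ / α r ^ 6

variable {A B : ℂ → ℂ}

/-- the coefficient `x` -/
def xx (α τ : ℂ → ℂ) (s : ℂ) : ℂ := deriv α s / α s + al (τ s) * deriv τ s

/-- the coefficient `y` -/
def yy (α τ : ℂ → ℂ) (s : ℂ) : ℂ := be (τ s) * deriv τ s * α s ^ 2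

theorem Ok.A_eq (h : Ok A B α τ s) : (LC (τ s)).g₂ = α s ^ 4 * A s := by
  rw [h.hA.self_of_nhds]
  have := h.a0
  field_simp

theorem Ok.B_eq (h : Ok A B α τ s) : (LC (τ s)).g₃ = α s ^ 6 * B s := by
  rw [h.hB.self_of_nhds]
  have := h.a0
  field_simp

theorem Ok.g2 (h : Ok A B α τ s) : (Lm α τ s).g₂ = A s := by
  rw [(Hm_Lm h.a0).g₂]
  exact h.hA.self_of_nhds.symm

theorem Ok.g3 (h : Ok A B α τ s) : (Lm α τ s).g₃ = B s := by
  rw [(Hm_Lm h.a0).g₃]
  exact h.hB.self_of_nhds.symm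

theorem Ok.dA (h : Ok A B α τ s) :
    HasDerivAt A (-4 * xx α τ s * A s - 6 * yy α τ s * B s) s := by
  have ha := h.a0
  obtain ⟨-, d2, d3, -, -⟩ := Pool.Agent.Y685.H2.task_A4 (τ s) h.im
  have m2 := HasDerivAt.comp s (h₂ := fun r => (LC r).g₂) (h := τ) d2 h.dt.hasDerivAt
  have n2 := m2.div (h.da.hasDerivAt.pow 4) (pow_ne_zero _ ha)
  have e2 : HasDerivAt A _ s := n2.congr_of_eventuallyEq (by
    filter_upwards [h.hA] with r hr
    rw [hr]
    rfl)
  refine e2.congr_deriv ?_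
  simp only [Function.comp, xx, yy, Pi.pow_apply]
  rw [h.A_eq, h.B_eq]
  field_simp
  ring

theorem Ok.dB (h : Ok A B α τ s) :
    HasDerivAt B (-6 * xx α τ s * B s - yy α τ s * A s ^ 2 / 3) s := by
  have ha := h.a0
  obtain ⟨-, d2, d3, -, -⟩ := Pool.Agent.Y685.H2.task_A4 (τ s) h.im
  have m2 := HasDerivAt.comp s (h₂ := fun r => (LC r).g₃) (h := τ) d3 h.dt.hasDerivAt
  have n2 := m2.div (h.da.hasDerivAt.pow 6) (pow_ne_zero _ ha)
  have e2 : HasDerivAt B _ s := n2.congr_of_eventuallyEq (by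
    filter_upwards [h.hB] with r hr
    rw [hr]
    rfl)
  refine e2.congr_deriv ?_
  simp only [Function.comp, xx, yy, Pi.pow_apply]
  rw [h.A_eq, h.B_eq]
  field_simp
  ring

/-- uniqueness of the coefficients -/
theorem Ok.xy (h : Ok A B α τ s) {x y : ℂ} (hA : HasDerivAt A (-4 * x * A s - 6 * y * B s) s)
    (hB : HasDerivAt B (-6 * x * B s - y * A s ^ 2 / 3) s) : xx α τ s = x ∧ yy α τ s = y := by
  have e1 := h.dA.unique hA
  have e2 := h.dB.unique hB
  have hd : A s ^ 3 - 27 * B s ^ 2 ≠ 0 := by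
    intro h0
    apply disc_LC (τ s)
    rw [h.A_eq, h.B_eq]
    linear_combination (α s ^ 12) * h0
  generalize xx α τ s = X at *
  generalize yy α τ s = Y at *
  generalize A s = a at *
  generalize B s = b at *
  have h1 : (a ^ 3 - 27 * b ^ 2) * (Y - y) = 0 := by
    linear_combination (9 / 2 * b) * e1 - (3 * a) * e2
  have h2 := (mul_eq_zero.1 h1).resolve_left hd
  have hY : Y = y := sub_eq_zero.1 h2
  subst hY
  refine ⟨?_, rfl⟩
  have h3 : a * (X - x) = 0 := by linear_combination (-1 / 4 : ℂ) * e1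
  have h4 : b * (X - x) = 0 := by linear_combination (-1 / 6 : ℂ) * e2
  by_contra hne
  have h5 : X - x ≠ 0 := sub_ne_zero.2 hne
  have ha : a = 0 := (mul_eq_zero.1 h3).resolve_right h5
  have hb : b = 0 := (mul_eq_zero.1 h4).resolve_right h5
  apply hd
  rw [ha, hb]
  ring

/-- the derivative of `α` -/
theorem Ok.dal (h : Ok A B α τ s) :
    HasDerivAt α (xx α τ s * α s + yy α τ s * (h1 (τ s) / α s)) s := by
  have ha := h.a0
  refine h.da.hasDerivAt.congr_deriv ?_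
  obtain ⟨r1, r2, -⟩ := rel h.im
  unfold xx yy
  field_simp
  linear_combination (-(α s * deriv τ s)) * r1

theorem Ok.dal2 (h : Ok A B α τ s) :
    HasDerivAt (fun r => α r * τ r)
      (xx α τ s * (α s * τ s) + yy α τ s * (h2 (τ s) / α s)) s := by
  have ha := h.a0
  refine (h.da.hasDerivAt.mul h.dt.hasDerivAt).congr_deriv ?_
  obtain ⟨r1, r2, -⟩ := rel h.im
  unfold xx yy
  field_simp
  linear_combination (-(α s * deriv τ s)) * r2

theorem Ok.dk1 (h : Ok A B α τ s) :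
    HasDerivAt (fun r => h1 (τ r) / α r)
      (-xx α τ s * (h1 (τ s) / α s) - yy α τ s * (A s / 12) * α s) s := by
  have ha := h.a0
  have m2 := HasDerivAt.comp s (h₂ := h1) (h := τ) (dh1 h.im) h.dt.hasDerivAt
  have n2 := m2.div h.da.hasDerivAt ha
  refine n2.congr_deriv ?_
  simp only [Function.comp, xx, yy]
  rw [h.A_eq]
  field_simp
  ring

theorem Ok.dk2 (h : Ok A B α τ s) :
    HasDerivAt (fun r => h2 (τ r) / α r)
      (-xx α τ s * (h2 (τ s) / α s) - yy α τ s * (A s / 12) * (α s * τ s)) s := by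
  have ha := h.a0
  have m2 := HasDerivAt.comp s (h₂ := h2) (h := τ) (dh2 h.im) h.dt.hasDerivAt
  have n2 := m2.div h.da.hasDerivAt ha
  refine n2.congr_deriv ?_
  simp only [Function.comp, xx, yy]
  rw [h.A_eq]
  field_simp
  ring

end Pool.Agent.NH19.LF
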