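import Mathlib
import Pool.Agent.Y119.IC.Imp
import Pool.Agent.NH19.LF.Fam

/-!
# Points over the family of lattices
-/

set_option autoImplicit false

open UpperHalfPlane Filter Topology
open scoped PeriodPair

noncomputable section

namespace Pool.Agent.NH19.LF

open Pool.Agent.Y685 (LL LC LC_ω₂ LC_coe Hm h1 h2 al be Wc)
open H667R3 Pool.Agent.W245.EB

variable {α τ A B : ℂ → ℂ} {s : ℂ}

/-- composition with a curve -/
theorem comp_curve2 {F : ℂ × ℂ → ℂ} {c d : ℂ} {τ u : ℂ → ℂ} {τ' u' s : ℂ}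
    (hF : HasFDerivAt F (c • ContinuousLinearMap.fst ℂ ℂ ℂ + d • ContinuousLinearMap.snd ℂ ℂ ℂ)
      (τ s, u s)) (ht : HasDerivAt τ τ' s) (hu : HasDerivAt u u' s) :
    HasDerivAt (fun r => F (τ r, u r)) (c * τ' + d * u') s := by
  have h1 : HasDerivAt (fun r => ((τ r, u r) : ℂ × ℂ)) (τ', u') s := ht.prodMk hu
  have h2 := HasFDerivAt.comp_hasDerivAt (l := F) s hF h1
  refine h2.congr_deriv ?_
  simp

/-- the local branch of the elliptic logarithm -/
theorem exists_u {C : ℂ → ℂ} (ht : 0 < (τ s).im) (hτ : AnalyticAt ℂ τ s) (hα : AnalyticAt ℂ α s)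
    (hC : AnalyticAt ℂ C s) {u₀ : ℂ} (hu : u₀ ∉ (LC (τ s)).lattice)
    (h1 : ℘[LC (τ s)] u₀ = α s ^ 2 * C s) (h2 : ℘'[LC (τ s)] u₀ ≠ 0) :
    ∃ u : ℂ → ℂ, u s = u₀ ∧ AnalyticAt ℂ u s ∧
      ∀ᶠ r in 𝓝 s, ℘[LC (τ r)] (u r) = α r ^ 2 * C r := by
  have hD : AnalyticAt ℂ (fun r => α r ^ 2 * C r) s := (hα.pow 2).mul hC
  have hSH : Pool.Agent.Y685.H2.SH (fun r z => ℘[LC (τ r)] z - α r ^ 2 * C r) (s, u₀) := by
    have h3 := Pool.Agent.Y685.H2.SH_wp ht hu
    have hm : ContinuousAt (fun q : ℂ × ℂ => (τ q.1, q.2)) (s, u₀) := by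
      refine ContinuousAt.prodMk ?_ continuousAt_snd
      exact ContinuousAt.comp (f := Prod.fst) (g := τ) hτ.continuousAt continuousAt_fst
    have h4 := hm.eventually h3
    have h5 : ∀ᶠ q : ℂ × ℂ in 𝓝 (s, u₀), AnalyticAt ℂ τ q.1 ∧
        AnalyticAt ℂ (fun r => α r ^ 2 * C r) q.1 :=
      (continuous_fst.tendsto (s, u₀)).eventually
        (hτ.eventually_analyticAt.and hD.eventually_analyticAt)
    filter_upwards [h4, h5] with q hq1 hq2
    refine ⟨?_, ?_, ?_⟩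
    · have h6 : ContinuousAt (fun r : ℂ × ℂ => α r.1 ^ 2 * C r.1) q :=
        ContinuousAt.comp (f := Prod.fst) (g := fun r => α r ^ 2 * C r) hq2.2.continuousAt
          continuous_fst.continuousAt
      have h7 : ContinuousAt (fun q : ℂ × ℂ => (τ q.1, q.2)) q := by
        refine ContinuousAt.prodMk ?_ continuousAt_snd
        exact ContinuousAt.comp (f := Prod.fst) (g := τ) hq2.1.continuousAt continuousAt_fst
      have h8 : ContinuousAt (fun r : ℂ × ℂ => ℘[LC (τ r.1)] r.2) q :=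
        ContinuousAt.comp (f := fun q : ℂ × ℂ => (τ q.1, q.2))
          (g := fun r : ℂ × ℂ => ℘[LC r.1] r.2) hq1.1 h7
      exact h8.sub h6
    · have h8 : DifferentiableAt ℂ (fun r => ℘[LC (τ r)] q.2) q.1 :=
        DifferentiableAt.comp q.1 (g := fun t => ℘[LC t] q.2) (f := τ) hq1.2.1
          hq2.1.differentiableAt
      exact h8.sub hq2.2.differentiableAt
    · exact hq1.2.2.sub_const _
  obtain ⟨u, hu1, hu2, hu3, -⟩ := Pool.Agent.Y119.IC.task_I _ _ hSH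
    (by change ℘[LC (τ s)] u₀ - α s ^ 2 * C s = 0; rw [h1, sub_self])
    (by
      change deriv (fun z => ℘[LC (τ s)] z - α s ^ 2 * C s) u₀ ≠ 0
      rw [deriv_sub_const, (LC (τ s)).deriv_weierstrassP]
      exact h2)
  refine ⟨u, hu1, hu2, ?_⟩
  filter_upwards [hu3] with t ht
  exact sub_eq_zero.1 ht

/-- the point -/
def pp (α u : ℂ → ℂ) (s : ℂ) : ℂ := α s * u s

/-- its `ζ` -/
def qq (α τ u : ℂ → ℂ) (s : ℂ) : ℂ := zeta (LC (τ s)) (u s) / α s

/-- half of its `℘'` -/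
def YY (α τ u : ℂ → ℂ) (s : ℂ) : ℂ := ℘'[LC (τ s)] (u s) / (2 * α s ^ 3)

/-- the conditions at a point -/
structure Pk (A B C α τ u : ℂ → ℂ) (C' s : ℂ) : Prop extends Ok A B α τ s where
  nm : u s ∉ (LC (τ s)).lattice
  du : DifferentiableAt ℂ u s
  dC : HasDerivAt C C' s
  hC : ∀ᶠ r in 𝓝 s, ℘[LC (τ r)] (u r) = α r ^ 2 * C r

variable {C u : ℂ → ℂ} {C' : ℂ}

theorem Pk.C_eq (h : Pk A B C α τ u C' s) : ℘[LC (τ s)] (u s) = α s ^ 2 * C s := h.hC.self_of_nhds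

theorem Pk.notMem (h : Pk A B C α τ u C' s) : pp α u s ∉ (Lm α τ s).lattice :=
  (Hm_Lm h.a0).notMem.2 h.nm

theorem Pk.wp (h : Pk A B C α τ u C' s) : ℘[Lm α τ s] (pp α u s) = C s := by
  unfold pp
  rw [(Hm_Lm h.a0).wp, h.C_eq]
  have := h.a0
  field_simp

theorem Pk.Y_eq (h : Pk A B C α τ u C' s) :
    ℘'[LC (τ s)] (u s) = 2 * α s ^ 3 * YY α τ u s := by
  unfold YY
  have := h.a0
  field_simp

theorem Pk.Ysq (h : Pk A B C α τ u C' s) :
    4 * YY α τ u s ^ 2 = 4 * C s ^ 3 - A s * C s - B s := by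
  have e := (LC (τ s)).derivWeierstrassP_sq (u s) h.nm
  rw [h.Y_eq, h.C_eq, h.A_eq, h.B_eq] at e
  apply mul_left_cancel₀ (pow_ne_zero 6 h.a0)
  linear_combination e

/-- the derivative of `u` -/
theorem Pk.dU (h : Pk A B C α τ u C' s) :
    2 * YY α τ u s * (α s * deriv u s - (al (τ s) * u s + be (τ s) * zeta (LC (τ s)) (u s)) *
      deriv τ s * α s) = 2 * C s * xx α τ s + C' - yy α τ s * (A s / 3 - 2 * C s ^ 2) := by
  have ha := h.a0
  have e1 := comp_curve2 (Pool.Agent.Y685.H2.task_A2 (τ s) (u s) h.im h.nm) h.dt.hasDerivAt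
    h.du.hasDerivAt
  have e2 := (h.da.hasDerivAt.pow 2).mul h.dC
  have e3 : HasDerivAt (fun r => ℘[LC (τ r)] (u r)) _ s := e2.congr_of_eventuallyEq (by
    filter_upwards [h.hC] with r hr
    simp [hr])
  have e4 := e1.unique e3
  rw [h.C_eq, h.Y_eq, h.A_eq] at e4
  norm_num at e4
  unfold xx yy
  have hX : deriv α s = α s * (deriv α s / α s) := by field_simp
  generalize deriv α s / α s = X at *
  rw [hX] at e4
  apply mul_left_cancel₀ (pow_ne_zero 2 ha)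
  linear_combination e4

theorem Pk.dp (h : Pk A B C α τ u C' s) {R : ℂ} (hY : YY α τ u s ≠ 0)
    (hR : 2 * YY α τ u s * R = 2 * C s * xx α τ s + C' - yy α τ s * (A s / 3 - 2 * C s ^ 2)) :
    α s * deriv u s = (al (τ s) * u s + be (τ s) * zeta (LC (τ s)) (u s)) *
      deriv τ s * α s + R ∧
    HasDerivAt (pp α u) (xx α τ s * pp α u s + yy α τ s * qq α τ u s + R) s := by
  have ha := h.a0
  have h1 := h.dU
  rw [← hR] at h1
  have h2 := mul_left_cancel₀ (mul_ne_zero two_ne_zero hY) h1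
  refine ⟨by linear_combination h2, ?_⟩
  refine (h.da.hasDerivAt.mul h.du.hasDerivAt).congr_deriv ?_
  unfold pp qq xx yy
  field_simp
  linear_combination h2

theorem Pk.dq (h : Pk A B C α τ u C' s) {R : ℂ} (hY : YY α τ u s ≠ 0)
    (hR : 2 * YY α τ u s * R = 2 * C s * xx α τ s + C' - yy α τ s * (A s / 3 - 2 * C s ^ 2)) :
    HasDerivAt (qq α τ u) (-xx α τ s * qq α τ u s - yy α τ s * (A s / 12) * pp α u s +
      yy α τ s * YY α τ u s - C s * R) s := by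
  have ha := h.a0
  obtain ⟨h2, -⟩ := h.dp hY hR
  have e0 : HasFDerivAt (fun p : ℂ × ℂ => zeta (LC p.1) p.2)
      ((al (τ s) * (u s * ℘[LC (τ s)] (u s) - zeta (LC (τ s)) (u s)) +
        be (τ s) * (℘'[LC (τ s)] (u s) / 2 + zeta (LC (τ s)) (u s) * ℘[LC (τ s)] (u s) -
          (LC (τ s)).g₂ / 12 * u s)) •
      ContinuousLinearMap.fst ℂ ℂ ℂ + (-℘[LC (τ s)] (u s)) • ContinuousLinearMap.snd ℂ ℂ ℂ)
      (τ s, u s) := by
    refine (Pool.Agent.Y685.H2.task_A1 (τ s) (u s) h.im h.nm).congr_fderiv ?_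
    refine ContinuousLinearMap.ext (fun v => ?_)
    simp
    ring
  have e1 := comp_curve2 e0 h.dt.hasDerivAt h.du.hasDerivAt
  have e2 := e1.div h.da.hasDerivAt ha
  refine e2.congr_deriv ?_
  rw [h.C_eq, h.Y_eq, h.A_eq]
  unfold qq pp xx yy
  field_simp
  linear_combination (-(12 * C s * α s ^ 2)) * h2

end Pool.Agent.NH19.LF
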