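import Mathlib
import Pool.Agent.NH19.LF.Pt

/-!
# The Legendre family near the parameter `0`
-/

set_option autoImplicit false

open UpperHalfPlane Filter Topology
open scoped PeriodPair

noncomputable section

namespace Pool.Agent.NH19.LF

open H667R3 Pool.Agent.W245.EB
open Pool.Agent.Y685 (LC)

/-- the centre -/
def sg (a1 a2 s : ℂ) : ℂ := (a1 + a2 + s) / 3

def e1 (a1 a2 s : ℂ) : ℂ := a1 - sg a1 a2 s

def e2 (a1 a2 s : ℂ) : ℂ := a2 - sg a1 a2 s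

def e3 (a1 a2 s : ℂ) : ℂ := s - sg a1 a2 s

/-- the invariant `g₂` -/
def G2 (a1 a2 s : ℂ) : ℂ :=
  -4 * (e1 a1 a2 s * e2 a1 a2 s + e1 a1 a2 s * e3 a1 a2 s + e2 a1 a2 s * e3 a1 a2 s)

/-- the invariant `g₃` -/
def G3 (a1 a2 s : ℂ) : ℂ := 4 * e1 a1 a2 s * e2 a1 a2 s * e3 a1 a2 s

def be (a1 a2 s : ℂ) : ℂ := 1 / (2 * (a1 - s) * (s - a2))

theorem d_sg (a1 a2 s : ℂ) : HasDerivAt (sg a1 a2) (1 / 3) s := by
  have h := ((hasDerivAt_id s).const_add (a1 + a2)).div_const 3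
  exact h

theorem d_G2 (a1 a2 s : ℂ) : HasDerivAt (G2 a1 a2) (4 * e3 a1 a2 s) s := by
  have h0 := d_sg a1 a2 s
  have h1 : HasDerivAt (e1 a1 a2) (-(1 / 3)) s := h0.const_sub a1
  have h2 : HasDerivAt (e2 a1 a2) (-(1 / 3)) s := h0.const_sub a2
  have h3 : HasDerivAt (e3 a1 a2) (1 - 1 / 3) s := (hasDerivAt_id s).sub h0
  have h := (((h1.mul h2).add (h1.mul h3)).add (h2.mul h3)).const_mul (-4)
  refine HasDerivAt.congr_deriv (f := G2 a1 a2) h ?_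
  simp only [e1, e2, e3, sg]
  ring

theorem d_G3 (a1 a2 s : ℂ) :
    HasDerivAt (G3 a1 a2) (4 / 3 * (e3 a1 a2 s ^ 2 + 2 * e1 a1 a2 s * e2 a1 a2 s)) s := by
  have h0 := d_sg a1 a2 s
  have h1 : HasDerivAt (e1 a1 a2) (-(1 / 3)) s := h0.const_sub a1
  have h2 : HasDerivAt (e2 a1 a2) (-(1 / 3)) s := h0.const_sub a2
  have h3 : HasDerivAt (e3 a1 a2) (1 - 1 / 3) s := (hasDerivAt_id s).sub h0
  have h := ((h1.const_mul 4).mul h2).mul h3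
  refine HasDerivAt.congr_deriv (f := G3 a1 a2) h ?_
  simp only [Pi.mul_apply, e1, e2, e3, sg]
  ring

theorem an_of_deriv {f g : ℂ → ℂ} (h : ∀ s, HasDerivAt f (g s) s) (s : ℂ) : AnalyticAt ℂ f s := by
  rw [Complex.analyticAt_iff_eventually_differentiableAt]
  exact Eventually.of_forall fun r => (h r).differentiableAt

theorem disc_eq (a1 a2 s : ℂ) : G2 a1 a2 s ^ 3 - 27 * G3 a1 a2 s ^ 2 =
    16 * ((a1 - a2) * (a1 - s) * (a2 - s)) ^ 2 := by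
  simp only [G2, G3, e1, e2, e3, sg]
  ring

/-- the identities which give the coefficients -/
theorem co1 {a1 a2 s : ℂ} (h1 : s ≠ a1) (h2 : s ≠ a2) :
    4 * e3 a1 a2 s = -4 * (be a1 a2 s * e3 a1 a2 s) * G2 a1 a2 s - 6 * be a1 a2 s * G3 a1 a2 s ∧
    4 / 3 * (e3 a1 a2 s ^ 2 + 2 * e1 a1 a2 s * e2 a1 a2 s) =
      -6 * (be a1 a2 s * e3 a1 a2 s) * G3 a1 a2 s - be a1 a2 s * G2 a1 a2 s ^ 2 / 3 := by
  have n1 : a1 - s ≠ 0 := sub_ne_zero.2 h1.symm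
  have n2 : s - a2 ≠ 0 := sub_ne_zero.2 h2
  have hb : be a1 a2 s * (2 * (a1 - s) * (s - a2)) = 1 := by
    unfold be
    field_simp
  constructor
  · have e : -4 * e3 a1 a2 s * G2 a1 a2 s - 6 * G3 a1 a2 s =
        4 * e3 a1 a2 s * (2 * (a1 - s) * (s - a2)) := by
      simp only [G2, G3, e1, e2, e3, sg]
      ring
    linear_combination (-4 * e3 a1 a2 s) * hb - be a1 a2 s * e
  · have e : -6 * e3 a1 a2 s * G3 a1 a2 s - G2 a1 a2 s ^ 2 / 3 =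
        4 / 3 * (e3 a1 a2 s ^ 2 + 2 * e1 a1 a2 s * e2 a1 a2 s) * (2 * (a1 - s) * (s - a2)) := by
      simp only [G2, G3, e1, e2, e3, sg]
      ring
    linear_combination (-(4 / 3 * (e3 a1 a2 s ^ 2 + 2 * e1 a1 a2 s * e2 a1 a2 s))) * hb -
      be a1 a2 s * e

theorem cub (a1 a2 s c : ℂ) : 4 * (c - sg a1 a2 s) ^ 3 - G2 a1 a2 s * (c - sg a1 a2 s) -
    G3 a1 a2 s = 4 * ((c - a1) * (c - a2) * (c - s)) := by
  simp only [G2, G3, e1, e2, e3, sg]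
  ring

theorem co2 {a1 a2 s c y : ℂ} (h1 : s ≠ a1) (h2 : s ≠ a2) (h3 : c ≠ s)
    (hy : y ^ 2 = (c - a1) * (c - a2) * (c - s)) :
    2 * y * (be a1 a2 s * y / (c - s)) = 2 * (c - sg a1 a2 s) * (be a1 a2 s * e3 a1 a2 s) +
      -(1 / 3) - be a1 a2 s * (G2 a1 a2 s / 3 - 2 * (c - sg a1 a2 s) ^ 2) := by
  have n1 : a1 - s ≠ 0 := sub_ne_zero.2 h1.symm
  have n2 : s - a2 ≠ 0 := sub_ne_zero.2 h2
  have n3 : c - s ≠ 0 := sub_ne_zero.2 h3
  have hb : be a1 a2 s * (2 * (a1 - s) * (s - a2)) = 1 := by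
    unfold be
    field_simp
  have e4 : 2 * y * (be a1 a2 s * y / (c - s)) = 2 * be a1 a2 s * ((c - a1) * (c - a2)) := by
    field_simp
    linear_combination be a1 a2 s * hy
  rw [e4]
  have e : 2 * ((c - a1) * (c - a2)) + 1 / 3 * (2 * (a1 - s) * (s - a2)) =
      2 * (c - sg a1 a2 s) * e3 a1 a2 s - (G2 a1 a2 s / 3 - 2 * (c - sg a1 a2 s) ^ 2) := by
    simp only [G2, e1, e2, e3, sg]
    ring
  linear_combination be a1 a2 s * e - (1 / 3 : ℂ) * hb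

/-- **The family of lattices** near the parameter `0`, with the quasi-periods `k₁, k₂` and points
over it. -/
theorem fam' (a1 a2 : ℂ) (n1 : a1 ≠ 0) (n2 : a2 ≠ 0) (n12 : a1 ≠ a2) :
    ∃ (Λ : ℂ → PeriodPair) (k1 k2 : ℂ → ℂ),
      (∀ᶠ s in 𝓝 (0 : ℂ), (Λ s).g₂ = G2 a1 a2 s ∧ (Λ s).g₃ = G3 a1 a2 s ∧
        AnalyticAt ℂ (fun z => (Λ z).ω₁) s ∧ AnalyticAt ℂ (fun z => (Λ z).ω₂) s ∧
        k1 s = eta (Λ s) (Λ s).ω₁ ∧ k2 s = eta (Λ s) (Λ s).ω₂ ∧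
        HasDerivAt (fun z => (Λ z).ω₁) (be a1 a2 s * (e3 a1 a2 s * (Λ s).ω₁ + k1 s)) s ∧
        HasDerivAt (fun z => (Λ z).ω₂) (be a1 a2 s * (e3 a1 a2 s * (Λ s).ω₂ + k2 s)) s ∧
        HasDerivAt k1 (-be a1 a2 s * (e3 a1 a2 s * k1 s + G2 a1 a2 s / 12 * (Λ s).ω₁)) s ∧
        HasDerivAt k2 (-be a1 a2 s * (e3 a1 a2 s * k2 s + G2 a1 a2 s / 12 * (Λ s).ω₂)) s) ∧
      ∀ c : ℂ, c ≠ 0 → c ≠ a1 → c ≠ a2 → ∃ p q y : ℂ → ℂ, ∀ᶠ s in 𝓝 (0 : ℂ),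
        AnalyticAt ℂ p s ∧ p s ∉ (Λ s).lattice ∧ ℘[Λ s] (p s) = c - sg a1 a2 s ∧
        ℘'[Λ s] (p s) = 2 * y s ∧ zeta (Λ s) (p s) = q s ∧
        y s ^ 2 = (c - a1) * (c - a2) * (c - s) ∧ AnalyticAt ℂ y s ∧
        HasDerivAt p (be a1 a2 s * (e3 a1 a2 s * p s + q s + y s / (c - s))) s ∧
        HasDerivAt q (-be a1 a2 s * (e3 a1 a2 s * q s + G2 a1 a2 s / 12 * p s +
          e3 a1 a2 s * y s / (c - s))) s := by
  have hA := an_of_deriv (d_G2 a1 a2) 0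
  have hB := an_of_deriv (d_G3 a1 a2) 0
  have hd : G2 a1 a2 0 ^ 3 - 27 * G3 a1 a2 0 ^ 2 ≠ 0 := by
    rw [disc_eq]
    refine mul_ne_zero (by norm_num) (pow_ne_zero _ (mul_ne_zero (mul_ne_zero ?_ ?_) ?_))
    · exact sub_ne_zero.2 n12
    · rwa [sub_zero]
    · rwa [sub_zero]
  obtain ⟨α, τ, hα, hτ, him, ha0, hev⟩ := fam0 hA hB hd
  have hOk : ∀ᶠ s in 𝓝 (0 : ℂ), Ok (G2 a1 a2) (G3 a1 a2) α τ s := by
    have hi : ∀ᶠ s in 𝓝 (0 : ℂ), 0 < (τ s).im :=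
      (Complex.continuous_im.continuousAt.comp hτ.continuousAt).eventually
        (eventually_gt_nhds him)
    filter_upwards [hi, hα.continuousAt.eventually_ne ha0, hα.eventually_analyticAt,
      hτ.eventually_analyticAt, hev.eventually_nhds] with s b1 b2 b3 b4 b5
    exact ⟨b1, b2, b3.differentiableAt, b4.differentiableAt, b5.mono fun r hr => hr.1,
      b5.mono fun r hr => hr.2⟩
  have hne : ∀ᶠ s in 𝓝 (0 : ℂ), s ≠ a1 ∧ s ≠ a2 :=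
    (continuousAt_id.eventually_ne (y := a1) (Ne.symm n1)).and
      (continuousAt_id.eventually_ne (y := a2) (Ne.symm n2))
  have hxy : ∀ᶠ s in 𝓝 (0 : ℂ), xx α τ s = be a1 a2 s * e3 a1 a2 s ∧ yy α τ s = be a1 a2 s := by
    filter_upwards [hOk, hne] with s h hs
    obtain ⟨c1, c2⟩ := co1 hs.1 hs.2
    exact h.xy ((d_G2 a1 a2 s).congr_deriv c1) ((d_G3 a1 a2 s).congr_deriv c2)
  refine ⟨Lm α τ, fun s => Pool.Agent.Y685.h1 (τ s) / α s,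
    fun s => Pool.Agent.Y685.h2 (τ s) / α s, ?_, ?_⟩
  · filter_upwards [hOk, hOk.eventually_nhds, hxy, hα.eventually_analyticAt,
      hτ.eventually_analyticAt] with s h hn hxy' hα' hτ'
    have g1 : (fun z => (Lm α τ z).ω₁) =ᶠ[𝓝 s] α := by
      filter_upwards [hn] with r hr
      exact Lm_ω₁ hr.a0
    have g2 : (fun z => (Lm α τ z).ω₂) =ᶠ[𝓝 s] fun z => α z * τ z := by
      filter_upwards [hn] with r hr
      exact Lm_ω₂ hr.a0 hr.im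
    have g3 : (Lm α τ s).ω₁ = α s := Lm_ω₁ h.a0
    have g4 : (Lm α τ s).ω₂ = α s * τ s := Lm_ω₂ h.a0 h.im
    refine ⟨h.g2, h.g3, hα'.congr g1.symm, (hα'.mul hτ').congr g2.symm, ?_, ?_, ?_, ?_, ?_, ?_⟩
    · rw [g3]
      have e := (Hm_Lm h.a0).eta (Pool.Agent.Y685.H2.one_mem h.im)
      rw [mul_one] at e
      rw [e]
      rfl
    · rw [g4, (Hm_Lm h.a0).eta (Pool.Agent.Y685.H2.t_mem h.im)]
      rfl
    · refine (h.dal.congr_of_eventuallyEq g1).congr_deriv ?_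
      rw [g3, hxy'.1, hxy'.2]
      ring
    · refine (h.dal2.congr_of_eventuallyEq g2).congr_deriv ?_
      rw [g4, hxy'.1, hxy'.2]
      ring
    · refine h.dk1.congr_deriv ?_
      rw [g3, hxy'.1, hxy'.2]
      ring
    · refine h.dk2.congr_deriv ?_
      rw [g4, hxy'.1, hxy'.2]
      ring
  · intro c hc0 hc1 hc2
    have hC : ∀ s, HasDerivAt (fun s => c - sg a1 a2 s) (-(1 / 3)) s := fun s =>
      (d_sg a1 a2 s).const_sub c
    obtain ⟨u₀, hu0, hu1⟩ := exists_wp_eq (LC (τ 0)) (α 0 ^ 2 * (c - sg a1 a2 0))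
    have hOk0 := hOk.self_of_nhds
    have hu2 : ℘'[LC (τ 0)] u₀ ≠ 0 := by
      have e := (LC (τ 0)).derivWeierstrassP_sq u₀ hu0
      rw [hu1, hOk0.A_eq, hOk0.B_eq] at e
      have e' := cub a1 a2 0 c
      intro h0
      rw [h0] at e
      have e3 : α 0 ^ 6 * (4 * ((c - a1) * (c - a2) * (c - 0))) = 0 := by
        rw [← e']
        linear_combination -e
      refine mul_ne_zero (pow_ne_zero 6 ha0) (mul_ne_zero (by norm_num) (mul_ne_zero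
        (mul_ne_zero ?_ ?_) ?_)) e3
      · exact sub_ne_zero.2 hc1
      · exact sub_ne_zero.2 hc2
      · rwa [sub_zero]
    obtain ⟨u, hu3, hu4, hu5⟩ := exists_u him hτ hα (an_of_deriv hC 0) hu0 hu1 hu2
    have hPk : ∀ᶠ s in 𝓝 (0 : ℂ), Pk (G2 a1 a2) (G3 a1 a2) (fun s => c - sg a1 a2 s) α τ u
        (-(1 / 3)) s := by
      have hnm : ∀ᶠ s in 𝓝 (0 : ℂ), 0 < (τ s).im ∧ u s ∉ (LC (τ s)).lattice := by
        have h6 := Pool.Agent.Y685.H2.eventually_notMem him hu0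
        rw [← hu3] at h6
        have h7 : ContinuousAt (fun s => (τ s, u s)) 0 := hτ.continuousAt.prodMk hu4.continuousAt
        exact h7.eventually h6
      filter_upwards [hOk, hnm, hu4.eventually_analyticAt, hu5.eventually_nhds] with s b1 b2 b3 b4
      exact { b1 with
        nm := b2.2
        du := b3.differentiableAt
        dC := hC s
        hC := b4 }
    have hYd : ∀ᶠ s in 𝓝 (0 : ℂ), DifferentiableAt ℂ (YY α τ u) s := by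
      filter_upwards [hPk] with s h
      have e1 := comp_curve2 (Pool.Agent.Y685.H2.task_A3 (τ s) (u s) h.im h.nm) h.dt.hasDerivAt
        h.du.hasDerivAt
      exact (e1.div ((h.da.hasDerivAt.pow 3).const_mul 2)
        (mul_ne_zero two_ne_zero (pow_ne_zero 3 h.a0))).differentiableAt
    have hne3 : ∀ᶠ s in 𝓝 (0 : ℂ), s ≠ c := continuousAt_id.eventually_ne (y := c) (Ne.symm hc0)
    refine ⟨pp α u, qq α τ u, YY α τ u, ?_⟩
    filter_upwards [hPk, hYd.eventually_nhds, hne, hne3, hxy, hα.eventually_analyticAt,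
      hu4.eventually_analyticAt] with s h hY hs hsc hxy' hα' hu'
    have y2 : YY α τ u s ^ 2 = (c - a1) * (c - a2) * (c - s) := by
      have := h.Ysq
      have e := cub a1 a2 s c
      linear_combination (1 / 4 : ℂ) * this + (1 / 4 : ℂ) * e
    have hY0 : YY α τ u s ≠ 0 := by
      intro h0
      rw [h0] at y2
      refine mul_ne_zero (mul_ne_zero (sub_ne_zero.2 hc1) (sub_ne_zero.2 hc2))
        (sub_ne_zero.2 hsc.symm) ?_
      rw [← y2]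
      ring
    have hR := co2 hs.1 hs.2 hsc.symm y2
    have hR' : 2 * YY α τ u s * (be a1 a2 s * YY α τ u s / (c - s)) =
        2 * (c - sg a1 a2 s) * xx α τ s + -(1 / 3) - yy α τ s * (G2 a1 a2 s / 3 -
          2 * (c - sg a1 a2 s) ^ 2) := by
      rw [hR, hxy'.1, hxy'.2]
    have hcs : c - s ≠ 0 := sub_ne_zero.2 hsc.symm
    refine ⟨hα'.mul hu', h.notMem, h.wp, ?_, ?_, y2, ?_, ?_, ?_⟩
    · unfold pp
      rw [(Hm_Lm h.a0).wp', h.Y_eq]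
      have := h.a0
      field_simp
    · unfold pp qq
      rw [(Hm_Lm h.a0).zeta]
    · rw [Complex.analyticAt_iff_eventually_differentiableAt]
      exact hY
    · refine (h.dp hY0 hR').2.congr_deriv ?_
      rw [hxy'.1, hxy'.2]
      ring
    · refine (h.dq hY0 hR').congr_deriv ?_
      rw [hxy'.1, hxy'.2]
      have e5 : e3 a1 a2 s = s - sg a1 a2 s := rfl
      rw [e5]
      field_simp
      ring

/-- the form without the values of `ζ` and `℘'` -/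
theorem fam (a1 a2 : ℂ) (n1 : a1 ≠ 0) (n2 : a2 ≠ 0) (n12 : a1 ≠ a2) :
    ∃ (Λ : ℂ → PeriodPair) (k1 k2 : ℂ → ℂ),
      (∀ᶠ s in 𝓝 (0 : ℂ), (Λ s).g₂ = G2 a1 a2 s ∧ (Λ s).g₃ = G3 a1 a2 s ∧
        AnalyticAt ℂ (fun z => (Λ z).ω₁) s ∧ AnalyticAt ℂ (fun z => (Λ z).ω₂) s ∧
        HasDerivAt (fun z => (Λ z).ω₁) (be a1 a2 s * (e3 a1 a2 s * (Λ s).ω₁ + k1 s)) s ∧
        HasDerivAt (fun z => (Λ z).ω₂) (be a1 a2 s * (e3 a1 a2 s * (Λ s).ω₂ + k2 s)) s ∧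
        HasDerivAt k1 (-be a1 a2 s * (e3 a1 a2 s * k1 s + G2 a1 a2 s / 12 * (Λ s).ω₁)) s ∧
        HasDerivAt k2 (-be a1 a2 s * (e3 a1 a2 s * k2 s + G2 a1 a2 s / 12 * (Λ s).ω₂)) s) ∧
      ∀ c : ℂ, c ≠ 0 → c ≠ a1 → c ≠ a2 → ∃ p q y : ℂ → ℂ, ∀ᶠ s in 𝓝 (0 : ℂ),
        AnalyticAt ℂ p s ∧ p s ∉ (Λ s).lattice ∧ ℘[Λ s] (p s) = c - sg a1 a2 s ∧
        y s ^ 2 = (c - a1) * (c - a2) * (c - s) ∧ AnalyticAt ℂ y s ∧
        HasDerivAt p (be a1 a2 s * (e3 a1 a2 s * p s + q s + y s / (c - s))) s ∧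
        HasDerivAt q (-be a1 a2 s * (e3 a1 a2 s * q s + G2 a1 a2 s / 12 * p s +
          e3 a1 a2 s * y s / (c - s))) s := by
  obtain ⟨Λ, k1, k2, h, h'⟩ := fam' a1 a2 n1 n2 n12
  refine ⟨Λ, k1, k2, ?_, ?_⟩
  · filter_upwards [h] with s hs
    exact ⟨hs.1, hs.2.1, hs.2.2.1, hs.2.2.2.1, hs.2.2.2.2.2.2⟩
  · intro c h0 h1 h2
    obtain ⟨p, q, y, hp⟩ := h' c h0 h1 h2
    refine ⟨p, q, y, ?_⟩
    filter_upwards [hp] with s hs
    exact ⟨hs.1, hs.2.1, hs.2.2.1, hs.2.2.2.2.2⟩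

end Pool.Agent.NH19.LF
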